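import Mathlib

namespace Pool.Agent.Results.MP_d2ef9c_co.DensityFourNinths

open Finset Filter Topology

/-- The six unit steps of the triangular grid. -/
def steps : Finset (ℤ × ℤ) := {(1, 0), (-1, 0), (0, 1), (0, -1), (1, -1), (-1, 1)}

/-- The vertex set of the triangular grid: pairs of nonnegative integers with sum at most n. -/
def verts (n : ℕ) : Finset (ℕ × ℕ) :=
  (range (n + 1) ×ˢ range (n + 1)).filter (fun p => p.1 + p.2 ≤ n)

/-- The difference q - p of two grid points, as an integer vector. -/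
def dif (p q : ℕ × ℕ) : ℤ × ℤ := ((q.1 : ℤ) - p.1, (q.2 : ℤ) - p.2)

lemma steps_neg : ∀ d ∈ steps, -d ∈ steps := by decide

lemma dif_swap (p q : ℕ × ℕ) : dif q p = -dif p q := by
  simp [dif]

/-- The triangular grid T_n. -/
def triGrid (n : ℕ) : SimpleGraph (verts n) where
  Adj p q := dif p.1 q.1 ∈ steps
  symm := ⟨by
    intro p q h
    rw [dif_swap]
    exact steps_neg _ h⟩
  loopless := ⟨by
    intro p h
    simp [dif, steps] at h⟩

/-- A vertex set S is an indeque set of G when every connected component of the induced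
subgraph G[S] is a complete graph. -/
def IsIndeque {V : Type*} (G : SimpleGraph V) (S : Finset V) : Prop :=
  ∀ u v : (↑S : Set V), (G.induce (↑S : Set V)).Reachable u v → u ≠ v →
    (G.induce (↑S : Set V)).Adj u v

/-- The indeque number: the largest size of an indeque set. -/
noncomputable def indequeNumber {V : Type*} (G : SimpleGraph V) : ℕ :=
  sSup {k : ℕ | ∃ S : Finset V, IsIndeque G S ∧ S.card = k}

/-! ### Local form of the indeque condition -/

lemma local_of_indeque {V : Type*} {G : SimpleGraph V} {S : Finset V} (h : IsIndeque G S)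
    {x y z : V} (hx : x ∈ S) (hy : y ∈ S) (hz : z ∈ S) (hxy : G.Adj x y) (hyz : G.Adj y z)
    (hne : x ≠ z) : G.Adj x z := by
  have h1 : (G.induce (↑S : Set V)).Adj ⟨x, by simpa using hx⟩ ⟨y, by simpa using hy⟩ := by
    simpa using hxy
  have h2 : (G.induce (↑S : Set V)).Adj ⟨y, by simpa using hy⟩ ⟨z, by simpa using hz⟩ := by
    simpa using hyz
  have h3 := h _ _ (h1.reachable.trans h2.reachable) (by
    intro he
    exact hne (congrArg Subtype.val he))
  simpa using h3

lemma indeque_of_local {V : Type*} {G : SimpleGraph V} {S : Finset V}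
    (h : ∀ x ∈ S, ∀ y ∈ S, ∀ z ∈ S, G.Adj x y → G.Adj y z → x ≠ z → G.Adj x z) :
    IsIndeque G S := by
  have key : ∀ (u v : (↑S : Set V)), (G.induce (↑S : Set V)).Walk u v →
      (u = v ∨ (G.induce (↑S : Set V)).Adj u v) := by
    intro u v w
    induction w with
    | nil => exact Or.inl rfl
    | cons hadj w ih =>
      rename_i a b c
      rcases ih with ih | ih
      · right
        rw [← ih]
        exact hadj
      · by_cases hac : a = c
        · exact Or.inl hac
        · right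
          have h1 : G.Adj a.1 b.1 := by simpa using hadj
          have h2 : G.Adj b.1 c.1 := by simpa using ih
          have h3 := h a.1 (by simpa using a.2) b.1 (by simpa using b.2) c.1
            (by simpa using c.2) h1 h2 (fun he => hac (Subtype.ext he))
          simpa using h3
  intro u v huv hne
  obtain ⟨w⟩ := huv
  rcases key u v w with h1 | h1
  · exact absurd h1 hne
  · exact h1

/-! ### The periodic pattern of density 4/9 -/

/-- The residue pattern: 12 of the 27 classes. -/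
def pat : Finset (ZMod 9 × ZMod 3) :=
  {(0, 0), (2, 0), (4, 0), (6, 0), (8, 0), (0, 1), (1, 1), (4, 1), (5, 1), (1, 2), (5, 2), (6, 2)}

/-- The class of a grid vector. -/
def cls (d : ℤ × ℤ) : ZMod 9 × ZMod 3 := (((d.1 - d.2 : ℤ) : ZMod 9), ((d.2 : ℤ) : ZMod 3))

lemma cls_add (d e : ℤ × ℤ) : cls (d + e) = cls d + cls e := by
  simp only [cls, Prod.fst_add, Prod.snd_add, Prod.mk_add_mk]
  congr 1
  · push_cast
    ring
  · push_cast
    ring

lemma pat_card : pat.card = 12 := by decide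

set_option maxRecDepth 100000 in
lemma pat_local : ∀ a ∈ pat, ∀ d ∈ steps, ∀ e ∈ steps, a + cls d ∈ pat →
    a + cls d + cls e ∈ pat → d + e = 0 ∨ d + e ∈ steps := by
  decide

/-- The class of a grid point. -/
def pcls (p : ℕ × ℕ) : ZMod 9 × ZMod 3 := cls ((p.1 : ℤ), (p.2 : ℤ))

lemma pcls_dif (p q : ℕ × ℕ) : pcls q = pcls p + cls (dif p q) := by
  unfold pcls
  rw [← cls_add]
  congr 1
  ext <;> simp [dif]

lemma dif_add (p q r : ℕ × ℕ) : dif p q + dif q r = dif p r := by
  ext <;> simp [dif]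

lemma dif_eq_zero {p q : ℕ × ℕ} (h : dif p q = 0) : p = q := by
  have h1 := congrArg Prod.fst h
  have h2 := congrArg Prod.snd h
  simp only [dif, Prod.fst_zero, Prod.snd_zero] at h1 h2
  ext
  · omega
  · omega

/-- A translate of the periodic pattern, restricted to the grid. -/
def patSet (n : ℕ) (t : ZMod 9 × ZMod 3) : Finset (verts n) :=
  univ.filter (fun p => pcls p.1 + t ∈ pat)

lemma patSet_indeque (n : ℕ) (t : ZMod 9 × ZMod 3) : IsIndeque (triGrid n) (patSet n t) := by
  apply indeque_of_local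
  intro x hx y hy z hz hxy hyz hne
  simp only [patSet, mem_filter, mem_univ, true_and] at hx hy hz
  have h1 : dif x.1 y.1 ∈ steps := hxy
  have h2 : dif y.1 z.1 ∈ steps := hyz
  have e1 : pcls y.1 + t = pcls x.1 + t + cls (dif x.1 y.1) := by
    rw [pcls_dif x.1 y.1]; abel
  have e2 : pcls z.1 + t = pcls x.1 + t + cls (dif x.1 y.1) + cls (dif y.1 z.1) := by
    rw [pcls_dif y.1 z.1, pcls_dif x.1 y.1]; abel
  rw [e1] at hy
  rw [e2] at hz
  rcases pat_local _ hx _ h1 _ h2 hy hz with h | h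
  · rw [dif_add] at h
    exact absurd (Subtype.ext (dif_eq_zero h)) hne
  · rw [dif_add] at h
    exact h

lemma patSet_sum (n : ℕ) : ∑ t : ZMod 9 × ZMod 3, (patSet n t).card = 12 * (verts n).card := by
  have h1 : ∀ t : ZMod 9 × ZMod 3, (patSet n t).card =
      ∑ p : verts n, if pcls p.1 + t ∈ pat then 1 else 0 := by
    intro t
    rw [patSet, card_filter]
  simp_rw [h1]
  rw [sum_comm]
  have h2 : ∀ p : verts n, (∑ t : ZMod 9 × ZMod 3, if pcls p.1 + t ∈ pat then 1 else 0) = 12 := by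
    intro p
    rw [← pat_card, ← card_filter]
    apply card_bij (fun t _ => pcls p.1 + t)
    · intro t ht
      simpa using ht
    · intro a _ b _ hab
      exact add_left_cancel hab
    · intro b hb
      refine ⟨b - pcls p.1, ?_, ?_⟩
      · simp [hb]
      · abel
  rw [sum_congr rfl (fun p _ => h2 p)]
  simp [mul_comm]

lemma bdd (n : ℕ) : BddAbove {k : ℕ | ∃ S : Finset (verts n), IsIndeque (triGrid n) S ∧
    S.card = k} := by
  refine ⟨Fintype.card (verts n), ?_⟩
  rintro k ⟨S, _, rfl⟩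
  exact card_le_univ S

lemma lower (n : ℕ) : 4 * (verts n).card ≤ 9 * indequeNumber (triGrid n) := by
  have h1 : ∀ t : ZMod 9 × ZMod 3, (patSet n t).card ≤ indequeNumber (triGrid n) := by
    intro t
    exact le_csSup (bdd n) ⟨patSet n t, patSet_indeque n t, rfl⟩
  have h2 := sum_le_sum (fun t (_ : t ∈ (univ : Finset (ZMod 9 × ZMod 3))) => h1 t)
  rw [patSet_sum] at h2
  have h3 : (∑ _t : ZMod 9 × ZMod 3, indequeNumber (triGrid n)) =
      27 * indequeNumber (triGrid n) := by
    rw [sum_const]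
    have : (univ : Finset (ZMod 9 × ZMod 3)).card = 27 := by decide
    rw [this]
    simp
  omega

/-! ### The certificate for the upper bound -/

/-- Induced three-vertex paths (end, middle, end) in the 3 by 4 window; cell k is (k/4, k%4). -/
def trip : List (ℕ × ℕ × ℕ) := [(0, 1, 2), (0, 1, 5), (2, 1, 4), (1, 2, 3), (1, 2, 6), (3, 2, 5), (2, 3, 7),
  (0, 4, 5), (0, 4, 8), (1, 4, 8), (1, 5, 6), (1, 5, 8), (1, 5, 9),
  (2, 5, 4), (2, 5, 8), (2, 5, 9), (4, 5, 6), (4, 5, 9), (6, 5, 8), (2, 6, 7),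
  (2, 6, 9), (2, 6, 10), (3, 6, 5), (3, 6, 9), (3, 6, 10), (5, 6, 7), (5, 6, 10), (7, 6, 9),
  (3, 7, 10), (3, 7, 11), (6, 7, 11), (4, 8, 9), (5, 9, 10), (6, 9, 8), (8, 9, 10), (6, 10, 11), (7, 10, 9), (9, 10, 11)]

/-- First table of potentials (base 32 digits). -/
def tab1 : ℕ := 3497510941846378270165041558970015799901644465587468351704032081828837692018802281341515030042948943782992976639414795113728145970300472843042428708696775090209059240097825750215158359565148556179071955968416503355743897412842554391670571070547675258887045131088510125591516341296774632871297609114861993985573596237446602817536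

/-- Second table of potentials (base 32 digits). -/
def tab2 : ℕ := 85310525213190638204217378179615957748555332419509221180802261675188757380303617387138992522141397897892527487717262111641100478914984913795647188145564066812050764126026479378468507310206586653704202861300945056029946266785334091614600748288305251478949031280419803727142213401807541233767888182091626838501740757581832167096613641000983763846117478418254169670012538449795709900349223213399643417194521335001202854915827288500552992499386334598579166124374219373242718777265287707591768779932321137548782956213255754475486195643075672054765758430984816116728764772624001727894428390010783799087582412786895952349809126030680973048719343616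

def F1 (k : ℕ) : ℕ := tab1 / 32 ^ k % 32

def F2 (k : ℕ) : ℕ := tab2 / 32 ^ k % 32

/-- Number of ones among the four lowest bits. -/
def pop4 (c : ℕ) : ℕ := c % 2 + c / 2 % 2 + c / 4 % 2 + c / 8 % 2

def lo3 (m : ℕ) : ℕ := m % 8 + 8 * (m / 16 % 8) + 64 * (m / 256 % 8)

def hi3 (m : ℕ) : ℕ := m / 2 % 8 + 8 * (m / 32 % 8) + 64 * (m / 512 % 8)

def tmask (t : ℕ × ℕ × ℕ) : ℕ := 2 ^ t.1 + 2 ^ t.2.1 + 2 ^ t.2.2

def ineq (m : ℕ) : Bool :=
  Nat.ble (9 * (pop4 m + pop4 (m / 16) + pop4 (m / 256)) + F1 (m % 256) + F2 (lo3 m))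
    (48 + F1 (m / 16) + F2 (hi3 m))

def check (m : ℕ) : Bool :=
  (trip.any (fun t => Nat.beq (Nat.land m (tmask t)) (tmask t))) || ineq m

def checkAll : ℕ → Bool
  | 0 => true
  | k + 1 => check k && checkAll k

set_option maxRecDepth 100000 in
lemma checkAll_true : checkAll 4096 = true := by
  decide +kernel

lemma check_of_lt : ∀ k, checkAll k = true → ∀ m < k, check m = true := by
  intro k
  induction k with
  | zero => intro _ m hm; omega
  | succ k ih =>
    intro h m hm
    simp only [checkAll, Bool.and_eq_true] at h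
    rcases Nat.lt_succ_iff_lt_or_eq.mp hm with h1 | h1
    · exact ih h.2 m h1
    · rw [h1]; exact h.1

lemma tab_bound : (∀ k < 256, F1 k ≤ 17) ∧ (∀ k < 512, F2 k ≤ 17) := by
  constructor <;> decide +kernel

lemma F1_le (k : ℕ) (h : k < 256) : F1 k ≤ 17 := tab_bound.1 k h

lemma F2_le (k : ℕ) (h : k < 512) : F2 k ≤ 17 := tab_bound.2 k h

lemma tmask_bits : ∀ t ∈ trip, (tmask t).testBit t.1 = true ∧ (tmask t).testBit t.2.1 = true ∧
    (tmask t).testBit t.2.2 = true ∧ t.1 < 12 ∧ t.2.1 < 12 ∧ t.2.2 < 12 := by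
  decide +kernel

/-- The cells of the three points of a triple form an induced path of the grid. -/
lemma trip_path : ∀ t ∈ trip,
    (((t.2.1 / 4 : ℕ) : ℤ) - (t.1 / 4 : ℕ), ((t.2.1 % 4 : ℕ) : ℤ) - (t.1 % 4 : ℕ)) ∈ steps ∧
    (((t.2.2 / 4 : ℕ) : ℤ) - (t.2.1 / 4 : ℕ), ((t.2.2 % 4 : ℕ) : ℤ) - (t.2.1 % 4 : ℕ)) ∈ steps ∧
    (((t.2.2 / 4 : ℕ) : ℤ) - (t.1 / 4 : ℕ), ((t.2.2 % 4 : ℕ) : ℤ) - (t.1 % 4 : ℕ)) ∉ steps ∧
    (((t.2.2 / 4 : ℕ) : ℤ) - (t.1 / 4 : ℕ), ((t.2.2 % 4 : ℕ) : ℤ) - (t.1 % 4 : ℕ)) ≠ 0 := by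
  decide

section Window

variable (f : ℕ → ℕ → ℕ)

/-- Code of four cells in a column. -/
def col (x y : ℕ) : ℕ := f x y + 2 * f x (y + 1) + 4 * f x (y + 2) + 8 * f x (y + 3)

/-- Code of the 3 by 4 window at (x, y). -/
def win (x y : ℕ) : ℕ := col f x y + 16 * col f (x + 1) y + 256 * col f (x + 2) y

/-- Code of the 2 by 4 window. -/
def win1 (x y : ℕ) : ℕ := col f x y + 16 * col f (x + 1) y

/-- Code of the 3 by 3 window. -/
def win2 (x y : ℕ) : ℕ := (f x y + 2 * f x (y + 1) + 4 * f x (y + 2)) +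
  8 * (f (x + 1) y + 2 * f (x + 1) (y + 1) + 4 * f (x + 1) (y + 2)) +
  64 * (f (x + 2) y + 2 * f (x + 2) (y + 1) + 4 * f (x + 2) (y + 2))

variable {f} (hf : ∀ x y, f x y ≤ 1)

include hf

lemma col_lt (x y : ℕ) : col f x y < 16 := by
  have h0 := hf x y
  have h1 := hf x (y + 1)
  have h2 := hf x (y + 2)
  have h3 := hf x (y + 3)
  unfold col
  omega

lemma win_lt (x y : ℕ) : win f x y < 4096 := by
  have h0 := col_lt hf x y
  have h1 := col_lt hf (x + 1) y
  have h2 := col_lt hf (x + 2) y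
  unfold win
  omega

lemma win_mod (x y : ℕ) : win f x y % 256 = win1 f x y := by
  have h0 := col_lt hf x y
  have h1 := col_lt hf (x + 1) y
  unfold win win1
  omega

lemma win_div (x y : ℕ) : win f x y / 16 = win1 f (x + 1) y := by
  have h0 := col_lt hf x y
  have e : win1 f (x + 1) y = col f (x + 1) y + 16 * col f (x + 2) y := rfl
  rw [e]
  unfold win
  omega

lemma win1_lt (x y : ℕ) : win1 f x y < 256 := by
  have h0 := col_lt hf x y
  have h1 := col_lt hf (x + 1) y
  unfold win1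
  omega

lemma win2_lt (x y : ℕ) : win2 f x y < 512 := by
  have h0 := hf x y
  have h1 := hf x (y + 1)
  have h2 := hf x (y + 2)
  have h3 := hf (x + 1) y
  have h4 := hf (x + 1) (y + 1)
  have h5 := hf (x + 1) (y + 2)
  have h6 := hf (x + 2) y
  have h7 := hf (x + 2) (y + 1)
  have h8 := hf (x + 2) (y + 2)
  unfold win2
  omega

lemma win_parts (x y : ℕ) : win f x y % 16 = col f x y ∧ win f x y / 16 % 16 = col f (x + 1) y ∧
    win f x y / 256 = col f (x + 2) y := by
  have h0 := col_lt hf x y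
  have h1 := col_lt hf (x + 1) y
  have h2 := col_lt hf (x + 2) y
  unfold win
  omega

lemma lo3_win (x y : ℕ) : lo3 (win f x y) = win2 f x y := by
  obtain ⟨e0, e1, e2⟩ := win_parts hf x y
  have a0 : win f x y % 8 = col f x y % 8 := by omega
  have a1 : win f x y / 16 % 8 = col f (x + 1) y % 8 := by omega
  have a2 : win f x y / 256 % 8 = col f (x + 2) y % 8 := by omega
  have b : ∀ z w, col f z w % 8 = f z w + 2 * f z (w + 1) + 4 * f z (w + 2) := by
    intro z w
    have h0 := hf z w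
    have h1 := hf z (w + 1)
    have h2 := hf z (w + 2)
    have h3 := hf z (w + 3)
    unfold col
    omega
  unfold lo3 win2
  rw [a0, a1, a2, b, b, b]

lemma hi3_win (x y : ℕ) : hi3 (win f x y) = win2 f x (y + 1) := by
  obtain ⟨e0, e1, e2⟩ := win_parts hf x y
  have h2 := col_lt hf (x + 2) y
  have a0 : win f x y / 2 % 8 = col f x y / 2 := by omega
  have a1 : win f x y / 32 % 8 = col f (x + 1) y / 2 := by omega
  have a2 : win f x y / 512 % 8 = col f (x + 2) y / 2 := by omega
  have b : ∀ z w, col f z w / 2 = f z (w + 1) + 2 * f z (w + 2) + 4 * f z (w + 3) := by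
    intro z w
    have h0 := hf z w
    have h1 := hf z (w + 1)
    have h2 := hf z (w + 2)
    have h3 := hf z (w + 3)
    unfold col
    omega
  unfold hi3 win2
  rw [a0, a1, a2, b, b, b]

lemma pop4_col (x y : ℕ) : pop4 (col f x y) = f x y + f x (y + 1) + f x (y + 2) + f x (y + 3) := by
  have h0 := hf x y
  have h1 := hf x (y + 1)
  have h2 := hf x (y + 2)
  have h3 := hf x (y + 3)
  unfold pop4 col
  omega

lemma pop_win (x y : ℕ) : pop4 (win f x y) + pop4 (win f x y / 16) + pop4 (win f x y / 256) =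
    ∑ k ∈ range 12, f (x + k / 4) (y + k % 4) := by
  obtain ⟨e0, e1, e2⟩ := win_parts hf x y
  have q : ∀ m : ℕ, pop4 m = pop4 (m % 16) := by
    intro m
    unfold pop4
    omega
  rw [q (win f x y), q (win f x y / 16), e0, e1, e2, pop4_col hf, pop4_col hf, pop4_col hf]
  simp only [sum_range_succ, sum_range_zero, Nat.reduceDiv, Nat.reduceMod, Nat.zero_div,
    Nat.zero_mod, add_zero, zero_add]
  ring

lemma win_bit (x y k : ℕ) (hk : k < 12) (h : (win f x y).testBit k = true) :
    f (x + k / 4) (y + k % 4) = 1 := by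
  rw [Nat.testBit_eq_decide_div_mod_eq, decide_eq_true_eq] at h
  have g00 := hf x y
  have g01 := hf x (y + 1)
  have g02 := hf x (y + 2)
  have g03 := hf x (y + 3)
  have g10 := hf (x + 1) y
  have g11 := hf (x + 1) (y + 1)
  have g12 := hf (x + 1) (y + 2)
  have g13 := hf (x + 1) (y + 3)
  have g20 := hf (x + 2) y
  have g21 := hf (x + 2) (y + 1)
  have g22 := hf (x + 2) (y + 2)
  have g23 := hf (x + 2) (y + 3)
  unfold win col at h
  interval_cases k <;>
    simp only [Nat.reduceDiv, Nat.reduceMod, Nat.zero_div, Nat.zero_mod, add_zero, pow_zero,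
      Nat.div_one, Nat.reducePow] at h ⊢ <;> omega

lemma ineq_at (x y : ℕ)
    (hP : ∀ t ∈ trip, ¬ (f (x + t.1 / 4) (y + t.1 % 4) = 1 ∧
      f (x + t.2.1 / 4) (y + t.2.1 % 4) = 1 ∧ f (x + t.2.2 / 4) (y + t.2.2 % 4) = 1)) :
    9 * (∑ k ∈ range 12, f (x + k / 4) (y + k % 4)) + F1 (win1 f x y) + F2 (win2 f x y) ≤
      48 + F1 (win1 f (x + 1) y) + F2 (win2 f x (y + 1)) := by
  have h := check_of_lt 4096 checkAll_true _ (win_lt hf x y)
  rw [check, Bool.or_eq_true] at h
  rcases h with h | h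
  · exfalso
    rw [List.any_eq_true] at h
    obtain ⟨t, ht, hm⟩ := h
    have hm' : Nat.land (win f x y) (tmask t) = tmask t := Nat.eq_of_beq_eq_true hm
    obtain ⟨b1, b2, b3, l1, l2, l3⟩ := tmask_bits t ht
    have hb : ∀ k, (tmask t).testBit k = true → (win f x y).testBit k = true := by
      intro k hk
      have h1 : (win f x y &&& tmask t) = tmask t := hm'
      have h2 := congrArg (fun z => z.testBit k) h1
      simp only [Nat.testBit_and, hk, Bool.and_true] at h2
      exact h2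
    exact hP t ht ⟨win_bit hf x y _ l1 (hb _ b1), win_bit hf x y _ l2 (hb _ b2),
      win_bit hf x y _ l3 (hb _ b3)⟩
  · have h' := Nat.le_of_ble_eq_true h
    rw [pop_win hf, win_mod hf, lo3_win hf, hi3_win hf, win_div hf] at h'
    exact h'

end Window

/-! ### Summation over the triangle -/

lemma sum_verts (N : ℕ) (h : ℕ → ℕ → ℕ) :
    ∑ p ∈ verts N, h p.1 p.2 = ∑ y ∈ range (N + 1), ∑ x ∈ range (N + 1 - y), h x y := by
  rw [verts, sum_filter, sum_product_right]
  apply sum_congr rfl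
  intro y hy
  rw [← sum_filter]
  apply sum_congr
  · ext x
    simp only [mem_filter, mem_range]
    constructor
    · rintro ⟨h1, h2⟩
      omega
    · intro h1
      omega
  · intro _ _
    rfl

lemma sum_verts' (N : ℕ) (h : ℕ → ℕ → ℕ) :
    ∑ p ∈ verts N, h p.1 p.2 = ∑ x ∈ range (N + 1), ∑ y ∈ range (N + 1 - x), h x y := by
  rw [verts, sum_filter, sum_product]
  apply sum_congr rfl
  intro x hx
  rw [← sum_filter]
  apply sum_congr
  · ext y
    simp only [mem_filter, mem_range]
    constructor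
    · rintro ⟨h1, h2⟩
      omega
    · intro h1
      omega
  · intro _ _
    rfl

lemma card_verts (N : ℕ) : 2 * (verts N).card = (N + 1) * (N + 2) := by
  have h1 : (verts N).card = ∑ p ∈ verts N, (fun _ _ : ℕ => 1) p.1 p.2 := by simp
  rw [h1, sum_verts N (fun _ _ => 1)]
  clear h1
  simp only [sum_const, card_range, smul_eq_mul, mul_one]
  induction N with
  | zero => simp
  | succ N ih =>
    rw [sum_range_succ']
    have h2 : ∀ y ∈ range (N + 1), N + 1 + 1 - (y + 1) = N + 1 - y := by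
      intro y hy
      omega
    rw [sum_congr rfl h2, mul_add]
    rw [ih]
    simp
    ring

lemma tele1 (N : ℕ) (h : ℕ → ℕ → ℕ) (B : ℕ) (hB : ∀ x y, h x y ≤ B) :
    ∑ p ∈ verts N, h (p.1 + 1) p.2 ≤ ∑ p ∈ verts N, h p.1 p.2 + (N + 1) * B := by
  rw [sum_verts N (fun x y => h (x + 1) y), sum_verts N h]
  have h1 : ∀ y ∈ range (N + 1), ∑ x ∈ range (N + 1 - y), h (x + 1) y ≤
      ∑ x ∈ range (N + 1 - y), h x y + B := by
    intro y _
    have e1 := sum_range_succ' (fun x => h x y) (N + 1 - y)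
    have e2 := sum_range_succ (fun x => h x y) (N + 1 - y)
    have e3 := hB (N + 1 - y) y
    omega
  refine (sum_le_sum h1).trans ?_
  rw [sum_add_distrib]
  simp

lemma tele2 (N : ℕ) (h : ℕ → ℕ → ℕ) (B : ℕ) (hB : ∀ x y, h x y ≤ B) :
    ∑ p ∈ verts N, h p.1 (p.2 + 1) ≤ ∑ p ∈ verts N, h p.1 p.2 + (N + 1) * B := by
  rw [sum_verts' N (fun x y => h x (y + 1)), sum_verts' N h]
  have h1 : ∀ x ∈ range (N + 1), ∑ y ∈ range (N + 1 - x), h x (y + 1) ≤
      ∑ y ∈ range (N + 1 - x), h x y + B := by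
    intro x _
    have e1 := sum_range_succ' (fun y => h x y) (N + 1 - x)
    have e2 := sum_range_succ (fun y => h x y) (N + 1 - x)
    have e3 := hB x (N + 1 - x)
    omega
  refine (sum_le_sum h1).trans ?_
  rw [sum_add_distrib]
  simp

lemma sum_bound (N : ℕ) (f : ℕ → ℕ → ℕ) (hf : ∀ x y, f x y ≤ 1)
    (hP : ∀ x y, ∀ t ∈ trip, ¬ (f (x + t.1 / 4) (y + t.1 % 4) = 1 ∧
      f (x + t.2.1 / 4) (y + t.2.1 % 4) = 1 ∧ f (x + t.2.2 / 4) (y + t.2.2 % 4) = 1)) :
    9 * (∑ k ∈ range 12, ∑ p ∈ verts N, f (p.1 + k / 4) (p.2 + k % 4)) ≤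
      24 * ((N + 1) * (N + 2)) + 34 * (N + 1) := by
  have h1 : ∑ p ∈ verts N, (9 * (∑ k ∈ range 12, f (p.1 + k / 4) (p.2 + k % 4)) +
      F1 (win1 f p.1 p.2) + F2 (win2 f p.1 p.2)) ≤
      ∑ p ∈ verts N, (48 + F1 (win1 f (p.1 + 1) p.2) + F2 (win2 f p.1 (p.2 + 1))) :=
    sum_le_sum (fun p _ => ineq_at hf p.1 p.2 (hP p.1 p.2))
  rw [sum_add_distrib, sum_add_distrib, sum_add_distrib, sum_add_distrib, ← mul_sum,
    sum_comm] at h1
  have h2 := tele1 N (fun x y => F1 (win1 f x y)) 17 (fun x y => F1_le _ (win1_lt hf x y))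
  have h3 := tele2 N (fun x y => F2 (win2 f x y)) 17 (fun x y => F2_le _ (win2_lt hf x y))
  have h4 : ∑ p ∈ verts N, 48 = 24 * ((N + 1) * (N + 2)) := by
    rw [sum_const, smul_eq_mul, ← card_verts]
    ring
  rw [h4] at h1
  omega

/-! ### The upper bound for indeque sets -/

/-- Indicator of S, moved by (2, 3). -/
noncomputable def ind (n : ℕ) (S : Finset (verts n)) (x y : ℕ) : ℕ :=
  open Classical in
  if ∃ p ∈ S, p.1.1 + 2 = x ∧ p.1.2 + 3 = y then 1 else 0

lemma ind_le (n : ℕ) (S : Finset (verts n)) (x y : ℕ) : ind n S x y ≤ 1 := by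
  unfold ind
  split_ifs <;> omega

lemma ind_one {n : ℕ} {S : Finset (verts n)} {x y : ℕ} (h : ind n S x y = 1) :
    ∃ p ∈ S, p.1.1 + 2 = x ∧ p.1.2 + 3 = y := by
  unfold ind at h
  split_ifs at h with h1
  exact h1

lemma ind_path {n : ℕ} {S : Finset (verts n)} (hS : IsIndeque (triGrid n) S) (x y : ℕ) :
    ∀ t ∈ trip, ¬ (ind n S (x + t.1 / 4) (y + t.1 % 4) = 1 ∧
      ind n S (x + t.2.1 / 4) (y + t.2.1 % 4) = 1 ∧
      ind n S (x + t.2.2 / 4) (y + t.2.2 % 4) = 1) := by
  rintro t ht ⟨h1, h2, h3⟩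
  obtain ⟨p, hp, p1, p2⟩ := ind_one h1
  obtain ⟨q, hq, q1, q2⟩ := ind_one h2
  obtain ⟨r, hr, r1, r2⟩ := ind_one h3
  obtain ⟨c1, c2, c3, c4⟩ := trip_path t ht
  have d1 : dif p.1 q.1 = (((t.2.1 / 4 : ℕ) : ℤ) - (t.1 / 4 : ℕ),
      ((t.2.1 % 4 : ℕ) : ℤ) - (t.1 % 4 : ℕ)) := by
    unfold dif
    ext
    · simp only
      omega
    · simp only
      omega
  have d2 : dif q.1 r.1 = (((t.2.2 / 4 : ℕ) : ℤ) - (t.2.1 / 4 : ℕ),
      ((t.2.2 % 4 : ℕ) : ℤ) - (t.2.1 % 4 : ℕ)) := by
    unfold dif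
    ext
    · simp only
      omega
    · simp only
      omega
  have d3 : dif p.1 r.1 = (((t.2.2 / 4 : ℕ) : ℤ) - (t.1 / 4 : ℕ),
      ((t.2.2 % 4 : ℕ) : ℤ) - (t.1 % 4 : ℕ)) := by
    unfold dif
    ext
    · simp only
      omega
    · simp only
      omega
  have a1 : (triGrid n).Adj p q := by
    change dif p.1 q.1 ∈ steps
    rw [d1]; exact c1
  have a2 : (triGrid n).Adj q r := by
    change dif q.1 r.1 ∈ steps
    rw [d2]; exact c2
  have hne : p ≠ r := by
    intro he
    apply c4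
    rw [← d3, he]
    simp [dif]
  have a3 : dif p.1 r.1 ∈ steps := local_of_indeque hS hp hq hr a1 a2 hne
  rw [d3] at a3
  exact c3 a3

lemma ind_sum {n : ℕ} (S : Finset (verts n)) (k : ℕ) (hk : k < 12) :
    S.card ≤ ∑ p ∈ verts (n + 5), ind n S (p.1 + k / 4) (p.2 + k % 4) := by
  have h1 : ∑ p ∈ verts (n + 5), ind n S (p.1 + k / 4) (p.2 + k % 4) =
      ((verts (n + 5)).filter (fun p => ind n S (p.1 + k / 4) (p.2 + k % 4) = 1)).card := by
    rw [card_filter]
    apply sum_congr rfl
    intro p _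
    have := ind_le n S (p.1 + k / 4) (p.2 + k % 4)
    split_ifs with h <;> omega
  rw [h1]
  have a : k / 4 ≤ 2 := by omega
  have b : k % 4 ≤ 3 := by omega
  apply card_le_card_of_injOn (fun p => (p.1.1 + 2 - k / 4, p.1.2 + 3 - k % 4))
  · intro p hp
    have hv := p.2
    simp only [verts, mem_filter, mem_product, mem_range] at hv
    simp only [coe_filter, Set.mem_ofPred_eq, verts, mem_filter, mem_product, mem_range]
    refine ⟨⟨⟨by omega, by omega⟩, by omega⟩, ?_⟩
    unfold ind
    rw [if_pos]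
    exact ⟨p, hp, by omega, by omega⟩
  · intro p _ q _ h
    simp only [Prod.mk.injEq] at h
    apply Subtype.ext
    ext
    · omega
    · omega

lemma upper_set {n : ℕ} {S : Finset (verts n)} (hS : IsIndeque (triGrid n) S) :
    108 * S.card ≤ 24 * ((n + 6) * (n + 7)) + 34 * (n + 6) := by
  have h1 := sum_bound (n + 5) (ind n S) (ind_le n S) (fun x y => ind_path hS x y)
  have h2 : ∑ _k ∈ range 12, S.card ≤
      ∑ k ∈ range 12, ∑ p ∈ verts (n + 5), ind n S (p.1 + k / 4) (p.2 + k % 4) :=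
    sum_le_sum (fun k hk => ind_sum S k (mem_range.mp hk))
  rw [sum_const, card_range, smul_eq_mul] at h2
  have e : (n + 5 + 1) * (n + 5 + 2) = (n + 6) * (n + 7) := by ring
  rw [e] at h1
  omega

lemma upper (n : ℕ) :
    108 * indequeNumber (triGrid n) ≤ 24 * ((n + 6) * (n + 7)) + 34 * (n + 6) := by
  have hne : {k : ℕ | ∃ S : Finset (verts n), IsIndeque (triGrid n) S ∧ S.card = k}.Nonempty := by
    refine ⟨0, ∅, ?_, rfl⟩
    intro u
    exact absurd u.2 (by simp)
  obtain ⟨S, hS, hk⟩ := Nat.sSup_mem hne (bdd n)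
  have := upper_set hS
  rw [hk] at this
  exact this

/-! ### The limit -/

/-- The density of a largest indeque set in the triangular grid tends to 4/9, not to 2/5. -/
theorem result :
    Tendsto (fun n : ℕ => (indequeNumber (triGrid n) : ℝ) / (Fintype.card (verts n) : ℝ))
      atTop (𝓝 (4 / 9)) ∧
    ¬ Tendsto (fun n : ℕ => (indequeNumber (triGrid n) : ℝ) / (Fintype.card (verts n) : ℝ))
      atTop (𝓝 (2 / 5)) := by
  have hlim : Tendsto (fun n : ℕ => (indequeNumber (triGrid n) : ℝ) /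
      (Fintype.card (verts n) : ℝ)) atTop (𝓝 (4 / 9)) := by
    have hc : ∀ n : ℕ, (Fintype.card (verts n) : ℝ) = ((n : ℝ) + 1) * (n + 2) / 2 := by
      intro n
      have h := card_verts n
      rw [Fintype.card_coe]
      have h' : (2 : ℝ) * ((verts n).card : ℝ) = ((n : ℝ) + 1) * (n + 2) := by exact_mod_cast h
      linarith
    have hpos : ∀ n : ℕ, (0 : ℝ) < ((n : ℝ) + 1) * (n + 2) / 2 := by
      intro n
      positivity
    have hup : Tendsto (fun n : ℕ => (4 / 9 : ℝ) + 97 / 9 * (1 / ((n : ℝ) + 1))) atTop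
        (𝓝 (4 / 9 + 97 / 9 * 0)) :=
      (tendsto_one_div_add_atTop_nhds_zero_nat.const_mul (97 / 9 : ℝ)).const_add (4 / 9 : ℝ)
    rw [mul_zero, add_zero] at hup
    refine tendsto_of_tendsto_of_tendsto_of_le_of_le tendsto_const_nhds hup ?_ ?_
    · intro n
      simp only
      rw [hc, le_div_iff₀ (hpos n)]
      have h := lower n
      have h' : (4 : ℝ) * ((verts n).card : ℝ) ≤ 9 * (indequeNumber (triGrid n) : ℝ) := by
        exact_mod_cast h
      have h2 := hc n
      rw [Fintype.card_coe] at h2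
      rw [h2] at h'
      linarith
    · intro n
      simp only
      rw [hc, div_le_iff₀ (hpos n)]
      have h := upper n
      have h' : (108 : ℝ) * (indequeNumber (triGrid n) : ℝ) ≤
          24 * (((n : ℝ) + 6) * (n + 7)) + 34 * (n + 6) := by exact_mod_cast h
      have hn : (0 : ℝ) ≤ (n : ℝ) := Nat.cast_nonneg n
      have e : ((4 / 9 : ℝ) + 97 / 9 * (1 / ((n : ℝ) + 1))) * (((n : ℝ) + 1) * (n + 2) / 2) =
          2 / 9 * (((n : ℝ) + 1) * (n + 2)) + 97 / 18 * (n + 2) := by
        field_simp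
        ring
      rw [e]
      nlinarith
  refine ⟨hlim, ?_⟩
  intro h
  have := tendsto_nhds_unique hlim h
  norm_num at this

end Pool.Agent.Results.MP_d2ef9c_co.DensityFourNinths
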